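import Mathlib

set_option autoImplicit false

namespace Pool.Agent.Results.MP_a6f615_lc.OneMonomial

open MvPolynomial

/-! ### Definitions of the problem -/

section defs

variable {V F : Type} [Field F]

/-- the Boolean ideal, generated by the polynomials `x^2 - x` -/
noncomputable def boolIdeal (V F : Type) [Field F] : Ideal (MvPolynomial V F) :=
  Ideal.span (Set.range fun x : V => X x ^ 2 - X x)

/-- no assignment of values in `{0,1}` is a common zero -/
def Unsat (P : Set (MvPolynomial V F)) : Prop :=
  ∀ a : V → F, (∀ x, a x = 0 ∨ a x = 1) → ∃ p ∈ P, eval a p ≠ 0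

open Classical in
/-- the number of distinct monomials occurring in the polynomials of a configuration -/
noncomputable def MSp (M : Finset (MvPolynomial V F)) : ℕ := (M.biUnion fun p => p.support).card

/-- `M 0, …, M ℓ` is a semantic polynomial calculus refutation of `P` -/
def IsSemanticRefutation (P : Set (MvPolynomial V F)) (ℓ : ℕ)
    (M : ℕ → Finset (MvPolynomial V F)) : Prop :=
  M 0 = ∅ ∧ 1 ∈ M ℓ ∧ ∀ i < ℓ, ∃ p ∈ P, ∀ f ∈ M (i + 1),
    f ∈ Ideal.span (M i : Set (MvPolynomial V F)) ⊔ boolIdeal V F ⊔ Ideal.span {p}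

/-- `f` has a (syntactic) polynomial calculus derivation from `P` all of whose lines have degree
at most `k` -/
inductive Derivable (P : Set (MvPolynomial V F)) (k : ℕ) : MvPolynomial V F → Prop
  | axm (p : MvPolynomial V F) : p ∈ P → p.totalDegree ≤ k → Derivable P k p
  | bool (x : V) : (X x ^ 2 - X x : MvPolynomial V F).totalDegree ≤ k →
      Derivable P k (X x ^ 2 - X x)
  | lin (α β : F) (p q : MvPolynomial V F) : Derivable P k p → Derivable P k q →
      (C α * p + C β * q).totalDegree ≤ k → Derivable P k (C α * p + C β * q)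
  | mul (x : V) (p : MvPolynomial V F) : Derivable P k p → (X x * p).totalDegree ≤ k →
      Derivable P k (X x * p)

end defs

/-! ### The up operator on the Boolean lattice is injective below the middle -/

section lattice

variable {n : ℕ}

lemma adjoint (f g : Finset (Fin n) → ℚ) :
    ∑ T, (∑ i ∈ T, f (T.erase i)) * g T = ∑ S, f S * ∑ i ∈ Sᶜ, g (insert i S) := by
  simp_rw [Finset.sum_mul, Finset.mul_sum]
  rw [Finset.sum_sigma', Finset.sum_sigma']
  refine Finset.sum_bij' (fun p _ => ⟨p.1.erase p.2, p.2⟩) (fun p _ => ⟨insert p.2 p.1, p.2⟩)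
    ?_ ?_ ?_ ?_ ?_
  · rintro ⟨T, i⟩ h
    simp only [Finset.mem_sigma, Finset.mem_univ, true_and, Finset.mem_compl,
      Finset.mem_erase, not_and, ne_eq, not_true_eq_false, false_implies] at h ⊢
  · rintro ⟨S, i⟩ h
    simp
  · rintro ⟨T, i⟩ h
    simp only [Finset.mem_sigma, Finset.mem_univ, true_and] at h
    simp [Finset.insert_erase h]
  · rintro ⟨S, i⟩ h
    simp only [Finset.mem_sigma, Finset.mem_univ, true_and, Finset.mem_compl] at h
    simp [Finset.erase_insert h]
  · rintro ⟨T, i⟩ h
    simp only [Finset.mem_sigma, Finset.mem_univ, true_and] at h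
    simp [Finset.insert_erase h]

lemma commutator (f : Finset (Fin n) → ℚ) (S : Finset (Fin n)) :
    ∑ i ∈ Sᶜ, ∑ j ∈ insert i S, f ((insert i S).erase j) =
      ((n : ℚ) - 2 * S.card) * f S + ∑ j ∈ S, ∑ i ∈ (S.erase j)ᶜ, f (insert i (S.erase j)) := by
  have h1 : ∀ i ∈ Sᶜ, ∑ j ∈ insert i S, f ((insert i S).erase j) =
      f S + ∑ j ∈ S, f ((insert i S).erase j) := by
    intro i hi
    rw [Finset.mem_compl] at hi
    rw [Finset.sum_insert hi, Finset.erase_insert hi]
  have h2 : ∀ j ∈ S, ∑ i ∈ (S.erase j)ᶜ, f (insert i (S.erase j)) =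
      f S + ∑ i ∈ Sᶜ, f (insert i (S.erase j)) := by
    intro j hj
    have : (S.erase j)ᶜ = insert j Sᶜ := by
      ext i; simp only [Finset.mem_compl, Finset.mem_erase, Finset.mem_insert]
      by_cases h : i = j <;> simp [h]
    rw [this, Finset.sum_insert (by simpa using hj), Finset.insert_erase hj]
  rw [Finset.sum_congr rfl h1, Finset.sum_congr rfl h2, Finset.sum_add_distrib,
    Finset.sum_add_distrib, Finset.sum_const, Finset.sum_const, Finset.card_compl,
    Fintype.card_fin, nsmul_eq_mul, nsmul_eq_mul]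
  have h3 : ∑ i ∈ Sᶜ, ∑ j ∈ S, f ((insert i S).erase j) =
      ∑ j ∈ S, ∑ i ∈ Sᶜ, f (insert i (S.erase j)) := by
    rw [Finset.sum_comm]
    apply Finset.sum_congr rfl; intro j hj
    apply Finset.sum_congr rfl; intro i hi
    have hij : i ≠ j := by rintro rfl; exact (Finset.mem_compl.mp hi) hj
    rw [Finset.erase_insert_of_ne hij]
  have hle : S.card ≤ n := by simpa using Finset.card_le_univ S
  rw [h3, Nat.cast_sub hle]
  ring

/-- If `f` lives on the level `j < n/2` and `∑_{i ∈ T} f (T \ {i}) = 0` for all `T` of size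
`j + 1`, then `f = 0`. -/
lemma up_injective (f : Finset (Fin n) → ℚ) (j : ℕ) (hj : 2 * j < n)
    (hf : ∀ T : Finset (Fin n), T.card = j + 1 → ∑ i ∈ T, f (T.erase i) = 0) :
    ∀ S : Finset (Fin n), S.card = j → f S = 0 := by
  classical
  set g : Finset (Fin n) → ℚ := fun S => if S.card = j then f S else 0 with hg
  have hU : ∀ T : Finset (Fin n), ∑ i ∈ T, g (T.erase i) = 0 := by
    intro T
    by_cases hT : T.card = j + 1
    · rw [← hf T hT]
      apply Finset.sum_congr rfl
      intro i hi
      simp only [hg]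
      rw [if_pos (by rw [Finset.card_erase_of_mem hi, hT]; rfl)]
    · apply Finset.sum_eq_zero
      intro i hi
      simp only [hg]
      rw [if_neg]
      rw [Finset.card_erase_of_mem hi]
      have : 0 < T.card := Finset.card_pos.mpr ⟨i, hi⟩
      omega
  -- the square of the norm of `U g` vanishes
  have h1 : ∑ S, g S * ∑ i ∈ Sᶜ, (fun T => ∑ j ∈ T, g (T.erase j)) (insert i S) = 0 := by
    rw [← adjoint g (fun T => ∑ j ∈ T, g (T.erase j))]
    apply Finset.sum_eq_zero
    intro T _
    rw [hU T, zero_mul]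
  have h2 : ∑ S, g S * (((n : ℚ) - 2 * S.card) * g S +
      ∑ j ∈ S, ∑ i ∈ (S.erase j)ᶜ, g (insert i (S.erase j))) = 0 := by
    rw [← h1]
    apply Finset.sum_congr rfl
    intro S _
    rw [← commutator]
  have h3 : ∑ S, g S * ∑ j ∈ S, ∑ i ∈ (S.erase j)ᶜ, g (insert i (S.erase j)) =
      ∑ R, (∑ i ∈ Rᶜ, g (insert i R)) * (∑ i ∈ Rᶜ, g (insert i R)) := by
    rw [← adjoint (fun R => ∑ i ∈ Rᶜ, g (insert i R)) g]
    apply Finset.sum_congr rfl
    intro S _
    rw [mul_comm]
  simp_rw [mul_add] at h2
  rw [Finset.sum_add_distrib, h3] at h2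
  have h4 : 0 ≤ ∑ R, (∑ i ∈ Rᶜ, g (insert i R)) * (∑ i ∈ Rᶜ, g (insert i R)) :=
    Finset.sum_nonneg fun R _ => mul_self_nonneg _
  have h5 : ∀ S : Finset (Fin n), 0 ≤ g S * (((n : ℚ) - 2 * S.card) * g S) := by
    intro S
    by_cases hS : S.card = j
    · have : (0 : ℚ) < (n : ℚ) - 2 * S.card := by
        rw [hS, sub_pos]; exact_mod_cast hj
      have h6 : g S * (((n : ℚ) - 2 * S.card) * g S) = ((n : ℚ) - 2 * S.card) * (g S * g S) := by
        ring
      rw [h6]
      exact mul_nonneg this.le (mul_self_nonneg _)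
    · simp only [hg]; rw [if_neg hS]; simp
  have h6 : ∑ S, g S * (((n : ℚ) - 2 * S.card) * g S) = 0 := by
    have := Finset.sum_nonneg (s := Finset.univ) fun S _ => h5 S
    linarith
  intro S hS
  have h7 := (Finset.sum_eq_zero_iff_of_nonneg (fun S _ => h5 S)).mp h6 S (Finset.mem_univ _)
  have h8 : (n : ℚ) - 2 * S.card ≠ 0 := by
    rw [hS]
    have : (2 * j : ℚ) < n := by exact_mod_cast hj
    linarith
  have h9 : g S = 0 := by
    rcases mul_eq_zero.mp h7 with h | h
    · exact h
    · rcases mul_eq_zero.mp h with h | h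
      · exact absurd h h8
      · exact h
  simpa [hg, hS] using h9

end lattice

/-! ### Multilinear coefficients -/

section coeffs

variable {n : ℕ}

/-- the coefficients of the multilinear reduction -/
noncomputable def ml (f : MvPolynomial (Fin n) ℚ) : Finset (Fin n) → ℚ :=
  fun S => ∑ m ∈ f.support, if m.support = S then coeff m f else 0

lemma ml_eq (f : MvPolynomial (Fin n) ℚ) (A : Finset (Fin n →₀ ℕ)) (hA : f.support ⊆ A)
    (S : Finset (Fin n)) : ml f S = ∑ m ∈ A, if m.support = S then coeff m f else 0 := by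
  unfold ml
  apply Finset.sum_subset hA
  intro m _ hm
  rw [MvPolynomial.notMem_support_iff] at hm
  rw [hm]; simp

lemma ml_add (f g : MvPolynomial (Fin n) ℚ) : ml (f + g) = ml f + ml g := by
  classical
  funext S
  rw [Pi.add_apply, ml_eq (f + g) (f.support ∪ g.support) MvPolynomial.support_add S,
    ml_eq f (f.support ∪ g.support) Finset.subset_union_left S,
    ml_eq g (f.support ∪ g.support) Finset.subset_union_right S, ← Finset.sum_add_distrib]
  apply Finset.sum_congr rfl
  intro m _
  rw [coeff_add]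
  split_ifs <;> simp

lemma ml_C_mul (a : ℚ) (f : MvPolynomial (Fin n) ℚ) : ml (C a * f) = a • ml f := by
  funext S
  have hsub : (C a * f).support ⊆ f.support := by
    intro m hm
    rw [mem_support_iff, coeff_C_mul] at hm
    rw [mem_support_iff]
    exact right_ne_zero_of_mul hm
  rw [ml_eq (C a * f) f.support hsub S, Pi.smul_apply, smul_eq_mul]
  unfold ml
  rw [Finset.mul_sum]
  apply Finset.sum_congr rfl
  intro m _
  rw [coeff_C_mul]
  split_ifs <;> simp

lemma ml_monomial (m : Fin n →₀ ℕ) (a : ℚ) (S : Finset (Fin n)) :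
    ml (monomial m a) S = if m.support = S then a else 0 := by
  classical
  rw [ml_eq (monomial m a) {m} MvPolynomial.support_monomial_subset S, Finset.sum_singleton,
    coeff_monomial, if_pos rfl]

/-- multiplication by `x_i` on multilinear coefficients -/
def mulx (i : Fin n) (c : Finset (Fin n) → ℚ) : Finset (Fin n) → ℚ :=
  fun T => if i ∈ T then c T + c (T.erase i) else 0

lemma mulx_add (i : Fin n) (c d : Finset (Fin n) → ℚ) : mulx i (c + d) = mulx i c + mulx i d := by
  funext T
  unfold mulx
  simp only [Pi.add_apply]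
  split_ifs <;> ring

lemma ml_X_mul (i : Fin n) (f : MvPolynomial (Fin n) ℚ) : ml (X i * f) = mulx i (ml f) := by
  classical
  induction f using MvPolynomial.induction_on' with
  | add p q hp hq => rw [mul_add, ml_add, hp, hq, ml_add, mulx_add]
  | monomial m a =>
    funext T
    have h1 : (X i : MvPolynomial (Fin n) ℚ) * monomial m a = monomial (Finsupp.single i 1 + m) a := by
      rw [X, monomial_mul, one_mul]
    have h2 : (Finsupp.single i 1 + m).support = insert i m.support := by
      ext j
      simp only [Finsupp.mem_support_iff, Finsupp.coe_add, Pi.add_apply, Finset.mem_insert,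
        Finsupp.single_apply]
      by_cases h : i = j
      · subst h; simp
      · simp [h, Ne.symm h]
    rw [h1, ml_monomial, h2]
    unfold mulx
    rw [ml_monomial, ml_monomial]
    by_cases hT : i ∈ T
    · rw [if_pos hT]
      by_cases hm : i ∈ m.support
      · rw [Finset.insert_eq_of_mem hm]
        have h3 : m.support ≠ T.erase i := by
          intro h; rw [h] at hm; simp at hm
        rw [if_neg h3, add_zero]
      · have h3 : m.support ≠ T := by rintro rfl; exact hm hT
        rw [if_neg h3, zero_add]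
        congr 1
        apply propext
        constructor
        · intro h; rw [← h, Finset.erase_insert hm]
        · intro h; rw [h, Finset.insert_erase hT]
    · rw [if_neg hT, if_neg]
      rintro rfl
      exact hT (Finset.mem_insert_self _ _)

lemma ml_degree (f : MvPolynomial (Fin n) ℚ) (k : ℕ) (hf : f.totalDegree ≤ k)
    (S : Finset (Fin n)) (hS : k < S.card) : ml f S = 0 := by
  unfold ml
  apply Finset.sum_eq_zero
  intro m hm
  rw [if_neg]
  rintro rfl
  have h1 : (m.sum fun _ e => e) ≤ f.totalDegree := le_totalDegree hm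
  have h2 : m.support.card ≤ m.sum fun _ e => e := by
    rw [Finsupp.sum, Finset.card_eq_sum_ones]
    apply Finset.sum_le_sum
    intro i hi
    exact Nat.one_le_iff_ne_zero.mpr (Finsupp.mem_support_iff.mp hi)
  omega

lemma mulx_smul (i : Fin n) (a : ℚ) (c : Finset (Fin n) → ℚ) : mulx i (a • c) = a • mulx i c := by
  funext T
  unfold mulx
  simp only [Pi.smul_apply, smul_eq_mul]
  split_ifs <;> ring

lemma mulx_sum {ι : Type} (s : Finset ι) (i : Fin n) (c : ι → Finset (Fin n) → ℚ) :
    mulx i (∑ j ∈ s, c j) = ∑ j ∈ s, mulx i (c j) := by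
  classical
  induction s using Finset.induction_on with
  | empty => funext T; simp [mulx]
  | insert a s ha ih => rw [Finset.sum_insert ha, Finset.sum_insert ha, mulx_add, ih]

lemma mulx_self (i : Fin n) (c : Finset (Fin n) → ℚ) : mulx i (mulx i c) = mulx i c := by
  funext T
  by_cases h : i ∈ T
  · have h1 : i ∉ T.erase i := by simp
    simp only [mulx]
    rw [if_pos h, if_neg h1, add_zero, if_pos h]
  · simp only [mulx]
    rw [if_neg h, if_neg h]

lemma mulx_comm (i j : Fin n) (c : Finset (Fin n) → ℚ) :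
    mulx i (mulx j c) = mulx j (mulx i c) := by
  by_cases hij : i = j
  · rw [hij]
  funext T
  have hji : j ≠ i := Ne.symm hij
  simp only [mulx, Finset.mem_erase]
  by_cases h1 : i ∈ T <;> by_cases h2 : j ∈ T
  · rw [if_pos h1, if_pos h2, if_pos ⟨hji, h2⟩, if_pos h2, if_pos h1, if_pos ⟨hij, h1⟩,
      Finset.erase_right_comm]
    ring
  · rw [if_pos h1, if_neg h2, if_neg (by tauto), if_neg h2]
    ring
  · rw [if_neg h1, if_pos h2, if_neg h1, if_neg (by tauto)]
    ring
  · rw [if_neg h1, if_neg h2]

/-- multiplication by `1 + ∑ x_i` on multilinear coefficients -/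
def mulp (c : Finset (Fin n) → ℚ) : Finset (Fin n) → ℚ := c + ∑ i, mulx i c

lemma mulp_apply (c : Finset (Fin n) → ℚ) (T : Finset (Fin n)) :
    mulp c T = (1 + T.card) * c T + ∑ i ∈ T, c (T.erase i) := by
  unfold mulp
  rw [Pi.add_apply, Finset.sum_apply]
  have h : ∑ i, mulx i c T = ∑ i ∈ T, (c T + c (T.erase i)) := by
    unfold mulx
    rw [← Finset.sum_filter]
    congr 1
    ext i; simp
  rw [h, Finset.sum_add_distrib, Finset.sum_const, nsmul_eq_mul]
  ring

lemma mulp_add (c d : Finset (Fin n) → ℚ) : mulp (c + d) = mulp c + mulp d := by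
  unfold mulp
  simp_rw [mulx_add]
  rw [Finset.sum_add_distrib]
  abel

lemma mulp_smul (a : ℚ) (c : Finset (Fin n) → ℚ) : mulp (a • c) = a • mulp c := by
  unfold mulp
  simp_rw [mulx_smul]
  rw [← Finset.smul_sum, smul_add]

lemma mulx_mulp (i : Fin n) (c : Finset (Fin n) → ℚ) : mulx i (mulp c) = mulp (mulx i c) := by
  unfold mulp
  rw [mulx_add, mulx_sum]
  congr 1
  exact Finset.sum_congr rfl fun j _ => mulx_comm i j c

/-- the polynomial `x_1 + … + x_n + 1` -/
noncomputable def knap (n : ℕ) : MvPolynomial (Fin n) ℚ := (∑ i, X i) + 1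

lemma ml_one (S : Finset (Fin n)) : ml (1 : MvPolynomial (Fin n) ℚ) S = if S = ∅ then 1 else 0 := by
  have h : (1 : MvPolynomial (Fin n) ℚ) = monomial 0 1 := rfl
  rw [h, ml_monomial]
  simp only [Finsupp.support_zero, eq_comm]

lemma ml_sum {ι : Type} (s : Finset ι) (f : ι → MvPolynomial (Fin n) ℚ) :
    ml (∑ j ∈ s, f j) = ∑ j ∈ s, ml (f j) := by
  classical
  induction s using Finset.induction_on with
  | empty => funext T; simp [ml]
  | insert a s ha ih => rw [Finset.sum_insert ha, Finset.sum_insert ha, ml_add, ih]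

lemma ml_knap : ml (knap n) = mulp (ml (1 : MvPolynomial (Fin n) ℚ)) := by
  unfold knap mulp
  rw [ml_add, ml_sum, add_comm]
  congr 1
  apply Finset.sum_congr rfl
  intro i _
  rw [← ml_X_mul, mul_one]

lemma knap_degree_pos (hn : 1 ≤ n) (k : ℕ) (h : (knap n).totalDegree ≤ k) : 1 ≤ k := by
  by_contra hk
  have hk0 : k = 0 := by omega
  set i : Fin n := ⟨0, by omega⟩
  have h1 := ml_degree (knap n) k h {i} (by rw [hk0, Finset.card_singleton]; norm_num)
  rw [ml_knap, mulp_apply] at h1
  simp only [ml_one, Finset.card_singleton, Finset.sum_singleton] at h1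
  simp at h1

lemma knap_degree (hn : 1 ≤ n) : (knap n).totalDegree = 1 := by
  apply le_antisymm
  · unfold knap
    refine (totalDegree_add _ _).trans (max_le ?_ (by simp))
    refine (totalDegree_finsetSum _ _).trans ?_
    apply Finset.sup_le
    intro i _
    rw [totalDegree_X]
  · exact knap_degree_pos hn _ le_rfl

/-! ### The degree lower bound -/

lemma level_zero (q : Finset (Fin n) → ℚ) (j : ℕ) (hj : 2 * j < n)
    (hq : ∀ S, j < S.card → q S = 0) (hm : ∀ T : Finset (Fin n), T.card = j + 1 → mulp q T = 0) :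
    ∀ S : Finset (Fin n), S.card = j → q S = 0 := by
  apply up_injective q j hj
  intro T hT
  have h := hm T hT
  rw [mulp_apply, hq T (by omega), mul_zero, zero_add] at h
  exact h

lemma invariant (hn : 1 ≤ n) (k : ℕ) (hk : 2 * k < n + 2) (f : MvPolynomial (Fin n) ℚ)
    (h : Derivable {knap n} k f) :
    f.totalDegree ≤ k ∧ ∃ q : Finset (Fin n) → ℚ, (∀ S, k ≤ S.card → q S = 0) ∧
      ml f = mulp q := by
  induction h with
  | axm p hp hd =>
    rw [Set.mem_singleton_iff] at hp
    subst hp
    refine ⟨hd, ml 1, fun S hS => ?_, ml_knap⟩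
    have h1 := knap_degree_pos hn k hd
    rw [ml_one, if_neg]
    rintro rfl
    simp at hS
    omega
  | bool x hd =>
    refine ⟨hd, 0, fun S _ => rfl, ?_⟩
    have h1 : (X x ^ 2 - X x : MvPolynomial (Fin n) ℚ) =
        X x * (X x * 1) + C (-1) * (X x * 1) := by
      rw [C_neg, C_1]; ring
    rw [h1, ml_add, ml_C_mul, ml_X_mul, ml_X_mul, mulx_self]
    funext S
    rw [mulp_apply]
    simp
  | lin α β p q _ _ hd ihp ihq =>
    obtain ⟨_, a, ha, ha'⟩ := ihp
    obtain ⟨_, b, hb, hb'⟩ := ihq
    refine ⟨hd, α • a + β • b, fun S hS => ?_, ?_⟩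
    · rw [Pi.add_apply, Pi.smul_apply, Pi.smul_apply, ha S hS, hb S hS]; simp
    · rw [ml_add, ml_C_mul, ml_C_mul, ha', hb', mulp_add, mulp_smul, mulp_smul]
  | mul x p _ hd ih =>
    obtain ⟨_, q, hq, hq'⟩ := ih
    by_cases hp0 : p = 0
    · refine ⟨hd, 0, fun S _ => rfl, ?_⟩
      rw [hp0, mul_zero]
      funext S
      rw [mulp_apply]
      simp [ml]
    have hdeg : p.totalDegree + 1 ≤ k := by
      have h1 : (X x * p).totalDegree = (X x : MvPolynomial (Fin n) ℚ).totalDegree + p.totalDegree :=
        totalDegree_mul_of_isDomain (X_ne_zero x) hp0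
      rw [totalDegree_X] at h1
      omega
    refine ⟨hd, mulx x q, fun S hS => ?_, ?_⟩
    · have hlev : ∀ R : Finset (Fin n), R.card = k - 1 → q R = 0 := by
        apply level_zero q (k - 1) (by omega)
        · intro R hR; exact hq R (by omega)
        · intro T hT
          rw [← hq']
          exact ml_degree p (k - 1) (by omega) T (by omega)
      unfold mulx
      split_ifs with hx
      · rw [hq S hS, zero_add]
        have hc : (S.erase x).card = S.card - 1 := Finset.card_erase_of_mem hx
        by_cases h2 : S.card = k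
        · exact hlev _ (by rw [hc, h2])
        · exact hq _ (by omega)
      · rfl
    · rw [ml_X_mul, hq', mulx_mulp]

lemma not_derivable (hn : 1 ≤ n) (k : ℕ) (hk : 2 * k < n + 2) :
    ¬ Derivable {knap n} k (1 : MvPolynomial (Fin n) ℚ) := by
  intro h
  obtain ⟨_, q, hq, hq'⟩ := invariant hn k hk 1 h
  have hall : ∀ m : ℕ, m ≤ k → ∀ S : Finset (Fin n), k - m ≤ S.card → q S = 0 := by
    intro m
    induction m with
    | zero => intro _ S hS; exact hq S (by omega)
    | succ m ih =>
      intro hm S hS
      by_cases h1 : k - m ≤ S.card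
      · exact ih (by omega) S h1
      · apply level_zero q (k - (m + 1)) (by omega) _ _ S (by omega)
        · intro R hR; exact ih (by omega) R (by omega)
        · intro T hT
          rw [← hq', ml_one, if_neg]
          rintro rfl
          simp at hT
  have h0 : ∀ S, q S = 0 := fun S => hall k le_rfl S (by omega)
  have h1 : ml (1 : MvPolynomial (Fin n) ℚ) ∅ = 0 := by
    rw [hq', mulp_apply, h0]; simp
  rw [ml_one] at h1
  simp at h1

end coeffs

/-! ### Upper bounds: one semantic step, and existence of a derivation -/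

section upper

lemma Derivable.mono {V F : Type} [Field F] {P : Set (MvPolynomial V F)} {k k' : ℕ} (hkk : k ≤ k')
    {f : MvPolynomial V F} (h : Derivable P k f) : Derivable P k' f := by
  induction h with
  | axm p hp hd => exact Derivable.axm p hp (hd.trans hkk)
  | bool x hd => exact Derivable.bool x (hd.trans hkk)
  | lin α β p q _ _ hd ihp ihq => exact Derivable.lin α β p q ihp ihq (hd.trans hkk)
  | mul x p _ hd ih => exact Derivable.mul x p ih (hd.trans hkk)

lemma exists_lin {V F : Type} [Field F] {P : Set (MvPolynomial V F)} {p q : MvPolynomial V F}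
    (hp : ∃ k, Derivable P k p) (hq : ∃ k, Derivable P k q) (α β : F) :
    ∃ k, Derivable P k (C α * p + C β * q) := by
  obtain ⟨k1, h1⟩ := hp
  obtain ⟨k2, h2⟩ := hq
  refine ⟨max (max k1 k2) (C α * p + C β * q).totalDegree, ?_⟩
  exact Derivable.lin α β p q (h1.mono (le_max_of_le_left (le_max_left _ _)))
    (h2.mono (le_max_of_le_left (le_max_right _ _))) (le_max_right _ _)

lemma exists_add {V F : Type} [Field F] {P : Set (MvPolynomial V F)} {p q : MvPolynomial V F}
    (hp : ∃ k, Derivable P k p) (hq : ∃ k, Derivable P k q) :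
    ∃ k, Derivable P k (p + q) := by
  have := exists_lin hp hq 1 1
  simpa using this

lemma exists_C {V F : Type} [Field F] {P : Set (MvPolynomial V F)} {p : MvPolynomial V F}
    (hp : ∃ k, Derivable P k p) (α : F) : ∃ k, Derivable P k (C α * p) := by
  have := exists_lin hp hp α 0
  simpa using this

lemma exists_X {V F : Type} [Field F] {P : Set (MvPolynomial V F)} {p : MvPolynomial V F}
    (hp : ∃ k, Derivable P k p) (x : V) : ∃ k, Derivable P k (X x * p) := by
  obtain ⟨k1, h1⟩ := hp
  exact ⟨max k1 (X x * p).totalDegree, Derivable.mul x p (h1.mono (le_max_left _ _)) (le_max_right _ _)⟩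

lemma exists_mul {V F : Type} [Field F] {P : Set (MvPolynomial V F)} (g : MvPolynomial V F) :
    ∀ p : MvPolynomial V F, (∃ k, Derivable P k p) → ∃ k, Derivable P k (g * p) := by
  induction g using MvPolynomial.induction_on with
  | C a => intro p hp; exact exists_C hp a
  | add g1 g2 h1 h2 => intro p hp; rw [add_mul]; exact exists_add (h1 p hp) (h2 p hp)
  | mul_X g x h =>
    intro p hp
    rw [mul_assoc]
    exact h _ (exists_X hp x)

lemma exists_of_mem {V F : Type} [Field F] {P : Set (MvPolynomial V F)} (f : MvPolynomial V F)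
    (hne : ∃ p : MvPolynomial V F, ∃ k, Derivable P k p)
    (hf : f ∈ Ideal.span (P ∪ Set.range fun x : V => (X x ^ 2 - X x : MvPolynomial V F))) :
    ∃ k, Derivable P k f := by
  induction hf using Submodule.span_induction with
  | mem p hp =>
    rcases hp with hp | ⟨x, rfl⟩
    · exact ⟨_, Derivable.axm p hp le_rfl⟩
    · exact ⟨_, Derivable.bool x le_rfl⟩
  | zero =>
    obtain ⟨p, hp⟩ := hne
    have := exists_C hp 0
    simpa using this
  | add p q _ _ hp hq => exact exists_add hp hq
  | smul g p _ hp => exact exists_mul g p hp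

/-- `1` lies in the ideal generated by `knap n` and the Boolean axioms. -/
lemma one_mem {n : ℕ} : (1 : MvPolynomial (Fin n) ℚ) ∈
    boolIdeal (Fin n) ℚ ⊔ Ideal.span {knap n} := by
  classical
  set s : MvPolynomial (Fin n) ℚ := ∑ i, X i with hs
  set G : Polynomial (MvPolynomial (Fin n) ℚ) :=
    ∏ j ∈ Finset.range (n + 1), (Polynomial.X - Polynomial.C (C (j : ℚ))) with hG
  have hGs : G.eval s ∈ boolIdeal (Fin n) ℚ := by
    obtain ⟨h, _, hh⟩ := combinatorial_nullstellensatz_exists_linearCombination
      (fun _ : Fin n => ({0, 1} : Finset ℚ)) (fun i => ⟨0, by simp⟩) (G.eval s) (by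
        intro x hx
        have hx' : ∀ i, x i = 0 ∨ x i = 1 := by
          intro i; have := hx i; simpa using this
        rw [hG, Polynomial.eval_prod, map_prod]
        -- the value of `s` is a natural number at most `n`
        have hval : eval x s = ((Finset.univ.filter fun i => x i = 1).card : ℚ) := by
          rw [hs, map_sum, Finset.card_filter]
          push_cast
          apply Finset.sum_congr rfl
          intro i _
          rw [eval_X]
          rcases hx' i with h | h <;> simp [h]
        have hle : (Finset.univ.filter fun i => x i = 1).card ≤ n := by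
          simpa using Finset.card_filter_le (Finset.univ : Finset (Fin n)) (fun i => x i = 1)
        apply Finset.prod_eq_zero (Finset.mem_range.mpr (Nat.lt_succ_of_le hle))
        rw [Polynomial.eval_sub, Polynomial.eval_X, Polynomial.eval_C, map_sub, hval, eval_C,
          sub_self])
    rw [hh, Finsupp.linearCombination_apply]
    apply Ideal.sum_mem
    intro i _
    simp only [smul_eq_mul]
    apply Ideal.mul_mem_left
    have : ∏ r ∈ ({0, 1} : Finset ℚ), (X i - C r : MvPolynomial (Fin n) ℚ) = X i ^ 2 - X i := by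
      rw [Finset.prod_pair (by norm_num), C_0, C_1]; ring
    rw [this]
    exact Ideal.subset_span ⟨i, rfl⟩
  have hdvd : knap n ∣ G.eval s - G.eval (C (-1)) := by
    have := Polynomial.sub_dvd_eval_sub s (C (-1) : MvPolynomial (Fin n) ℚ) G
    have h2 : s - C (-1) = knap n := by
      rw [hs, knap, C_neg, C_1]; ring
    rwa [h2] at this
  have hconst : G.eval (C (-1) : MvPolynomial (Fin n) ℚ) =
      C (∏ j ∈ Finset.range (n + 1), (-1 - (j : ℚ))) := by
    rw [hG, Polynomial.eval_prod, map_prod]
    apply Finset.prod_congr rfl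
    intro j _
    rw [Polynomial.eval_sub, Polynomial.eval_X, Polynomial.eval_C, C_sub]
  set c : ℚ := ∏ j ∈ Finset.range (n + 1), (-1 - (j : ℚ)) with hc
  have hc0 : c ≠ 0 := by
    rw [hc, Finset.prod_ne_zero_iff]
    intro j _
    have : (0 : ℚ) ≤ j := Nat.cast_nonneg j
    linarith
  have hmem : (C c : MvPolynomial (Fin n) ℚ) ∈ boolIdeal (Fin n) ℚ ⊔ Ideal.span {knap n} := by
    rw [← hconst]
    have h1 : G.eval (C (-1) : MvPolynomial (Fin n) ℚ) =
        G.eval s - (G.eval s - G.eval (C (-1))) := by ring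
    rw [h1]
    apply Ideal.sub_mem
    · exact Ideal.mem_sup_left hGs
    · exact Ideal.mem_sup_right (Ideal.mem_span_singleton.mpr hdvd)
  have h2 := Ideal.mul_mem_left _ (C c⁻¹) hmem
  rw [← C_mul, inv_mul_cancel₀ hc0, C_1] at h2
  exact h2

end upper

/-! ### The result -/

lemma example_all (n : ℕ) (hn : 1 ≤ n) :
    Unsat ({knap n} : Set (MvPolynomial (Fin n) ℚ)) ∧
    IsGreatest (totalDegree '' ({knap n} : Set (MvPolynomial (Fin n) ℚ))) 1 ∧
    (∃ M : ℕ → Finset (MvPolynomial (Fin n) ℚ),
      IsSemanticRefutation {knap n} 1 M ∧ ∀ i ≤ 1, MSp (M i) ≤ 1) ∧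
    ∃ D : ℕ, IsLeast {k | Derivable ({knap n} : Set (MvPolynomial (Fin n) ℚ)) k 1} D ∧
      n + 2 ≤ 2 * D := by
  classical
  refine ⟨?_, ?_, ?_, ?_⟩
  · intro a ha
    refine ⟨knap n, rfl, ?_⟩
    have h1 : 0 ≤ ∑ i, a i := by
      apply Finset.sum_nonneg
      intro i _
      rcases ha i with h | h <;> rw [h] <;> norm_num
    have h2 : eval a (knap n) = ∑ i, a i + 1 := by
      unfold knap
      rw [map_add, map_sum, map_one]
      simp only [eval_X]
    rw [h2]
    linarith
  · rw [Set.image_singleton, knap_degree hn]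
    exact ⟨rfl, fun y hy => le_of_eq hy⟩
  · refine ⟨fun i => if i = 0 then ∅ else {1}, ⟨by simp, by simp, ?_⟩, ?_⟩
    · intro i hi
      refine ⟨knap n, rfl, ?_⟩
      intro f hf
      have hi0 : i = 0 := by omega
      subst hi0
      simp only [zero_add, one_ne_zero, if_false, Finset.mem_singleton] at hf
      subst hf
      have h := one_mem (n := n)
      rw [sup_assoc]
      exact Ideal.mem_sup_right h
    · intro i _
      unfold MSp
      by_cases h : i = 0
      · simp [h]
      · simp only [h, if_false, Finset.singleton_biUnion]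
        have : (1 : MvPolynomial (Fin n) ℚ) = monomial 0 1 := rfl
        rw [this]
        refine (Finset.card_le_card MvPolynomial.support_monomial_subset).trans ?_
        simp
  · have hex : ∃ k, Derivable ({knap n} : Set (MvPolynomial (Fin n) ℚ)) k 1 := by
      apply exists_of_mem
      · exact ⟨knap n, _, Derivable.axm _ rfl le_rfl⟩
      · have h := one_mem (n := n)
        rw [Ideal.span_union, sup_comm]
        exact h
    refine ⟨Nat.find hex, ⟨Nat.find_spec hex, fun k hk => Nat.find_min' hex hk⟩, ?_⟩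
    by_contra hcon
    exact not_derivable hn (Nat.find hex) (by omega) (Nat.find_spec hex)

/-- (1) For every `n ≥ 1` the single polynomial `x_1 + … + x_n + 1` over `ℚ` (degree `1`) has a
semantic refutation of monomial space `1`, but every polynomial calculus refutation has degree at
least `n / 2 + 1`. (2) Hence the answer to Q1 is negative. -/
theorem result :
    (∀ n : ℕ, 1 ≤ n → ∃ P : Set (MvPolynomial (Fin n) ℚ), Unsat P ∧
      IsGreatest (totalDegree '' P) 1 ∧
      (∃ M : ℕ → Finset (MvPolynomial (Fin n) ℚ),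
        IsSemanticRefutation P 1 M ∧ ∀ i ≤ 1, MSp (M i) ≤ 1) ∧
      ∃ D : ℕ, IsLeast {k | Derivable P k 1} D ∧ n + 2 ≤ 2 * D) ∧
    ¬ ∃ c : ℝ, 0 < c ∧ ∀ (F : Type) [Field F] (V : Type) [Fintype V]
      (P : Set (MvPolynomial V F)), Unsat P →
      ∀ d D : ℕ, IsGreatest (totalDegree '' P) d → IsLeast {k | Derivable P k 1} D →
      ∀ (ℓ : ℕ) (M : ℕ → Finset (MvPolynomial V F)), IsSemanticRefutation P ℓ M →
      ∀ s : ℕ, (∀ i ≤ ℓ, MSp (M i) ≤ s) → c * ((D : ℝ) - d) ≤ s := by
  refine ⟨fun n hn => ⟨{knap n}, example_all n hn⟩, ?_⟩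
  rintro ⟨c, hc, h⟩
  obtain ⟨n, hn⟩ := exists_nat_gt (2 / c)
  have hn1 : 1 ≤ n := by
    by_contra h0
    have : n = 0 := by omega
    rw [this, Nat.cast_zero] at hn
    have : 0 < 2 / c := by positivity
    linarith
  obtain ⟨hu, hd, ⟨M, hM, hMs⟩, D, hD, hn2⟩ := example_all n hn1
  have h1 := h ℚ (Fin n) {knap n} hu 1 D hd hD 1 M hM 1 hMs
  have h2 : (n : ℝ) + 2 ≤ 2 * D := by exact_mod_cast hn2
  rw [div_lt_iff₀ hc] at hn
  push_cast at h1
  nlinarith

end Pool.Agent.Results.MP_a6f615_lc.OneMonomial
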